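import Pool.Agent.helper55.FPZ.SpecN

/-!
Row ND2 of project FPZ: a number killed by all derivations is algebraic.
-/

set_option autoImplicit false

namespace Pool.Agent.FPZ

open Matrix Polynomial Pool.Agent.PL Pool.Agent.X4

open scoped IntermediateField.algebraAdjoinAdjoin in
/-- A field of characteristic zero is formally smooth over the polynomial ring of a transcendence basis. -/
theorem ND2_smooth (F : Type) [Field F] [CharZero F] (ι : Type) (v : ι → F) (hv : IsTranscendenceBasis ℚ v) :
    Algebra.FormallySmooth (Algebra.adjoin ℚ (Set.range v)) F := by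
  have h1 : Algebra.FormallySmooth (Algebra.adjoin ℚ (Set.range v))
      (IntermediateField.adjoin ℚ (Set.range v)) :=
    .of_isLocalization (nonZeroDivisors _)
  have h3 : Algebra.IsAlgebraic (IntermediateField.adjoin ℚ (Set.range v)) F := hv.isAlgebraic_field
  have h4 : Algebra.FormallyEtale (IntermediateField.adjoin ℚ (Set.range v)) F :=
    Algebra.FormallyEtale.of_isSeparable _ F
  exact .comp _ (IntermediateField.adjoin ℚ (Set.range v)) _

/-- Derivations with prescribed values on a transcendence basis. -/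
theorem ND2_der (F : Type) [Field F] [CharZero F] (ι : Type) (v : ι → F) (hv : IsTranscendenceBasis ℚ v)
    (d : ι → F) : ∃ δ : Derivation ℚ F F, ∀ i, δ (v i) = d i := by
  have hs := ND2_smooth F ι v hv
  set A := Algebra.adjoin ℚ (Set.range v) with hA
  let B := TrivSqZeroExt F F
  let ψ : A →ₐ[ℚ] B := (MvPolynomial.aeval (fun i => (TrivSqZeroExt.inl (v i) + TrivSqZeroExt.inr (d i) : B))).comp
    (hv.1.aevalEquiv.symm : A →ₐ[ℚ] MvPolynomial ι ℚ)
  have hψv : ∀ i (h : v i ∈ A), ψ ⟨v i, h⟩ = (TrivSqZeroExt.inl (v i) + TrivSqZeroExt.inr (d i) : B) := by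
    intro i h
    have e1 : hv.1.aevalEquiv.symm (⟨v i, h⟩ : A) = MvPolynomial.X i := by
      rw [AlgEquiv.symm_apply_eq]
      apply Subtype.ext
      simp
    show MvPolynomial.aeval _ (hv.1.aevalEquiv.symm (⟨v i, h⟩ : A)) = _
    rw [e1, MvPolynomial.aeval_X]
  have hψf : ∀ a : A, (ψ a).fst = (a : F) := by
    have e1 : (TrivSqZeroExt.fstHom ℚ F F).comp ψ = A.val := by
      have e2 : ∀ p : MvPolynomial ι ℚ, TrivSqZeroExt.fstHom ℚ F F
          (MvPolynomial.aeval (fun i => (TrivSqZeroExt.inl (v i) + TrivSqZeroExt.inr (d i) : B)) p) =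
          MvPolynomial.aeval v p := by
        intro p
        have e3 : (TrivSqZeroExt.fstHom ℚ F F).comp
            (MvPolynomial.aeval (fun i => (TrivSqZeroExt.inl (v i) + TrivSqZeroExt.inr (d i) : B))) =
            MvPolynomial.aeval v := by
          apply MvPolynomial.algHom_ext
          intro i
          rw [AlgHom.comp_apply, MvPolynomial.aeval_X, MvPolynomial.aeval_X]
          show (TrivSqZeroExt.inl (v i) + TrivSqZeroExt.inr (d i) : TrivSqZeroExt F F).fst = v i
          rw [TrivSqZeroExt.fst_add, TrivSqZeroExt.fst_inl, TrivSqZeroExt.fst_inr, add_zero]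
        exact AlgHom.congr_fun e3 p
      apply AlgHom.ext
      intro a
      obtain ⟨p, rfl⟩ := hv.1.aevalEquiv.surjective a
      show TrivSqZeroExt.fstHom ℚ F F (MvPolynomial.aeval _ (hv.1.aevalEquiv.symm (hv.1.aevalEquiv p))) = _
      rw [AlgEquiv.symm_apply_apply, e2]
      simp
    intro a
    exact AlgHom.congr_fun e1 a
  let _ : Algebra A B := ψ.toRingHom.toAlgebra
  have hal : ∀ a : A, algebraMap A B a = ψ a := fun a => rfl
  let g : B →ₐ[A] F :=
    { toRingHom := (TrivSqZeroExt.fstHom ℚ F F).toRingHom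
      commutes' := fun a => by
        show (ψ a).fst = _
        rw [hψf]
        rfl }
  have hg : Function.Surjective g := fun y => ⟨TrivSqZeroExt.inl y, rfl⟩
  have hker : IsNilpotent (RingHom.ker (g : B →+* F)) := by
    have h0 : RingHom.ker (g : B →+* F) * RingHom.ker (g : B →+* F) = ⊥ := by
      rw [eq_bot_iff, Ideal.mul_le]
      intro r hr s hs'
      have hr' : TrivSqZeroExt.fst r = 0 := hr
      have hs'' : TrivSqZeroExt.fst s = 0 := hs'
      rw [Ideal.mem_bot]
      apply TrivSqZeroExt.ext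
      · show (r * s : TrivSqZeroExt F F).fst = 0
        rw [TrivSqZeroExt.fst_mul, hr', zero_mul]
      · show (r * s : TrivSqZeroExt F F).snd = 0
        rw [TrivSqZeroExt.snd_mul, hr', hs'']
        simp
    exact ⟨2, (Submodule.pow_succ _).trans (by rw [Submodule.pow_one]; exact h0)⟩
  let s : F →ₐ[A] B := Algebra.FormallySmooth.liftOfSurjective (AlgHom.id A F) g hg hker
  have hsf : ∀ y : F, (s y).fst = y := fun y =>
    Algebra.FormallySmooth.liftOfSurjective_apply (AlgHom.id A F) g hg hker y
  let f : F →+ F :=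
    { toFun := fun y => TrivSqZeroExt.snd (s y)
      map_zero' := by
        show TrivSqZeroExt.snd (s 0) = 0
        rw [map_zero]
        rfl
      map_add' := fun a b => by
        show TrivSqZeroExt.snd (s (a + b)) = TrivSqZeroExt.snd (s a) + TrivSqZeroExt.snd (s b)
        rw [map_add]
        rfl }
  have hf : ∀ y, f y = TrivSqZeroExt.snd (s y) := fun y => rfl
  refine ⟨Derivation.mk' f.toRatLinearMap (fun a b => ?_), ?_⟩
  · show f (a * b) = a • f b + b • f a
    have h1 : s (a * b) = s a * s b := map_mul s a b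
    rw [hf, hf, hf, h1]
    show (s a * s b : TrivSqZeroExt F F).snd = _
    rw [TrivSqZeroExt.snd_mul, hsf, hsf]
    simp [mul_comm]
  · intro i
    have hi : v i ∈ A := Algebra.subset_adjoin ⟨i, rfl⟩
    show TrivSqZeroExt.snd (s (v i)) = d i
    have h1 : s (v i) = algebraMap A B ⟨v i, hi⟩ := by
      rw [← s.commutes]
      rfl
    rw [h1, hal, hψv, TrivSqZeroExt.snd_add, TrivSqZeroExt.snd_inl, TrivSqZeroExt.snd_inr, zero_add]

/-- Row ND2. -/
theorem ND2 : ND2_stmt := by
  intro F _ _ x hx
  by_contra hcon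
  have h1 : AlgebraicIndepOn ℚ id ({x} : Set F) := by
    rw [AlgebraicIndepOn, algebraicIndependent_singleton_iff ⟨x, rfl⟩]
    exact hcon
  obtain ⟨t, ht, hb⟩ := exists_isTranscendenceBasis_superset h1
  obtain ⟨δ, hδ⟩ := ND2_der F t (fun a : t => (a : F)) hb (fun _ => 1)
  have h2 := hδ ⟨x, ht rfl⟩
  change δ x = 1 at h2
  rw [hx δ] at h2
  exact zero_ne_one h2

end Pool.Agent.FPZ
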